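import Mathlib

/-!
MP_1858fb_ag, add-on SMOOTH POINTS, piece SP-A (helper86): Nakayama lemma for families of
polynomials over a local ring.
-/

namespace Pool.Agent.SP1858

open Polynomial

variable {R : Type*} [CommRing R] [IsLocalRing R] {κ : Type*} [Field κ]

/-- For a surjection of a local ring onto a field, nonzero value means unit. -/
theorem isUnit_of_map_ne_zero (φ : R →+* κ) (hφ : Function.Surjective φ) {a : R}
    (ha : φ a ≠ 0) : IsUnit a := by
  have hmax : (RingHom.ker φ).IsMaximal := RingHom.ker_isMaximal_of_surjective φ hφ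
  have hk : RingHom.ker φ = IsLocalRing.maximalIdeal R := IsLocalRing.eq_maximalIdeal hmax
  by_contra hu
  have : a ∈ IsLocalRing.maximalIdeal R := (IsLocalRing.mem_maximalIdeal a).2 hu
  rw [← hk, RingHom.mem_ker] at this
  exact ha this

/-- SP-A: a family of polynomials over a local ring, one of them with unit leading coefficient,
whose reductions generate the unit ideal, generates the unit ideal. -/
theorem naka (φ : R →+* κ) (hφ : Function.Surjective φ) {ι : Type*} (M : ι → R[X]) (l₀ : ι)
    (h0 : IsUnit (M l₀).leadingCoeff)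
    (h : Ideal.span (Set.range fun l => (M l).map φ) = ⊤) :
    Ideal.span (Set.range M) = ⊤ := by
  classical
  have hmax : (RingHom.ker φ).IsMaximal := RingHom.ker_isMaximal_of_surjective φ hφ
  have hk : RingHom.ker φ = IsLocalRing.maximalIdeal R := IsLocalRing.eq_maximalIdeal hmax
  by_contra hI
  obtain ⟨P, hPmax, hIP⟩ := Ideal.exists_le_maximal _ hI
  have hMP : ∀ l, M l ∈ P := fun l => hIP (Ideal.subset_span ⟨l, rfl⟩)
  -- the quotient is integral over `R`
  let q : R[X] →+* R[X] ⧸ P := Ideal.Quotient.mk P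
  let f : R →+* R[X] ⧸ P := q.comp C
  have hfX : f.IsIntegralElem (q X) := by
    obtain ⟨u, hu⟩ := h0
    refine ⟨C (↑u⁻¹ : R) * M l₀, ?_, ?_⟩
    · have : (C (↑u⁻¹ : R) * M l₀).leadingCoeff = 1 := by
        rw [← Polynomial.smul_eq_C_mul]
        have h1 : (↑u⁻¹ : R) * (M l₀).leadingCoeff = 1 := by
          rw [← hu]; simp
        have h2 := Polynomial.leadingCoeff_mul' (p := C (↑u⁻¹ : R)) (q := M l₀)
          (by
            rw [leadingCoeff_C, h1]
            exact one_ne_zero)
        rw [Polynomial.smul_eq_C_mul, h2, leadingCoeff_C, h1]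
      exact this
    · have : Polynomial.eval₂ f (q X) (C (↑u⁻¹ : R) * M l₀) = q (C (↑u⁻¹ : R) * M l₀) := by
        have h3 : ∀ p : R[X], Polynomial.eval₂ f (q X) p = q p := by
          intro p
          have h4 := Polynomial.hom_eval₂ p (C : R →+* R[X]) q X
          rw [Polynomial.eval₂_C_X] at h4
          exact h4.symm
        exact h3 _
      rw [this, map_mul]
      have h5 : q (M l₀) = 0 := Ideal.Quotient.eq_zero_iff_mem.2 (hMP l₀)
      rw [h5, mul_zero]
  have hfint : f.IsIntegral := by
    intro z
    obtain ⟨p, rfl⟩ := Ideal.Quotient.mk_surjective z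
    change f.IsIntegralElem (q p)
    induction p using Polynomial.induction_on' with
    | add p r hp hr =>
      rw [map_add]
      exact RingHom.IsIntegralElem.add f hp hr
    | monomial n a =>
      have : q (monomial n a) = f a * (q X) ^ n := by
        rw [← Polynomial.C_mul_X_pow_eq_monomial, map_mul, map_pow]
        rfl
      rw [this]
      refine RingHom.IsIntegralElem.mul f (f.isIntegralElem_map) ?_
      clear this
      induction n with
      | zero => rw [pow_zero]; exact f.isIntegralElem_one
      | succ n ih => rw [pow_succ]; exact RingHom.IsIntegralElem.mul f ih hfX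
  have hker : (RingHom.ker f).IsMaximal := by
    have hb : (⊥ : Ideal (R[X] ⧸ P)).IsMaximal := by
      have := (Ideal.Quotient.maximal_ideal_iff_isField_quotient P).1 hPmax
      let _ := this.toField
      exact Ideal.bot_isMaximal
    have := Ideal.isMaximal_comap_of_isIntegral_of_isMaximal' f hfint (⊥ : Ideal (R[X] ⧸ P))
    exact this
  have hkf : RingHom.ker f = IsLocalRing.maximalIdeal R := IsLocalRing.eq_maximalIdeal hker
  -- kernel of reduction lies in `P`
  have hred : ∀ p : R[X], p.map φ = 0 → p ∈ P := by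
    intro p hp
    have hc : ∀ n, p.coeff n ∈ RingHom.ker f := by
      intro n
      rw [hkf, ← hk, RingHom.mem_ker]
      have := congrArg (fun g => Polynomial.coeff g n) hp
      simpa using this
    rw [← Ideal.Quotient.eq_zero_iff_mem]
    rw [Polynomial.as_sum_range_C_mul_X_pow p, map_sum]
    refine Finset.sum_eq_zero fun n _ => ?_
    rw [map_mul]
    have h6 : (Ideal.Quotient.mk P) (C (p.coeff n)) = 0 := hc n
    rw [h6, zero_mul]
  -- lift the relation
  have h1 : (1 : κ[X]) ∈ Ideal.map (Polynomial.mapRingHom φ) (Ideal.span (Set.range M)) := by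
    rw [Ideal.map_span, ← Set.range_comp]
    have : (⇑(Polynomial.mapRingHom φ) ∘ M) = fun l => (M l).map φ := rfl
    rw [this, h]
    trivial
  have hsurj : Function.Surjective (Polynomial.mapRingHom φ) := Polynomial.map_surjective φ hφ
  obtain ⟨g, hg, hg1⟩ := (Ideal.mem_map_iff_of_surjective _ hsurj).1 h1
  have h7 : 1 - g ∈ P := by
    apply hred
    rw [Polynomial.map_sub, Polynomial.map_one]
    have : g.map φ = 1 := hg1
    rw [this, sub_self]
  have h8 : (1 : R[X]) ∈ P := by
    have := P.add_mem h7 (hIP hg)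
    simpa using this
  exact hPmax.ne_top ((Ideal.eq_top_iff_one P).2 h8)

/-- Over an algebraically closed field a family of polynomials without a common zero generates
the unit ideal. -/
theorem span_eq_top_of_no_zero [IsAlgClosed κ] {ι : Type*} (M : ι → κ[X])
    (h : ∀ x : κ, ∃ l, (M l).eval x ≠ 0) : Ideal.span (Set.range M) = ⊤ := by
  classical
  set I := Ideal.span (Set.range M) with hI
  obtain ⟨g, hg⟩ := (IsPrincipalIdealRing.principal I).principal
  have hdvd : ∀ l, g ∣ M l := by
    intro l
    have : M l ∈ I := Ideal.subset_span ⟨l, rfl⟩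
    rw [hg] at this
    exact Ideal.mem_span_singleton.1 this
  have hu : IsUnit g := by
    by_contra hn
    by_cases hd : g.degree = 0
    · exact hn (Polynomial.isUnit_iff_degree_eq_zero.2 hd)
    · obtain ⟨x, hx⟩ := IsAlgClosed.exists_root g hd
      obtain ⟨l, hl⟩ := h x
      apply hl
      obtain ⟨r, hr⟩ := hdvd l
      rw [hr, Polynomial.eval_mul, hx.eq_zero, zero_mul]
  rw [hg]
  exact Ideal.span_singleton_eq_top.2 hu

/-- SP-A, version with a nominal degree. -/
theorem naka_degree [IsAlgClosed κ] (φ : R →+* κ) (hφ : Function.Surjective φ) {ι : Type*}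
    (M : ι → R[X]) (D : ℕ) (hdeg : ∀ l, (M l).natDegree ≤ D)
    (hoo : ∃ l, φ ((M l).coeff D) ≠ 0)
    (hz : ∀ x : κ, ∃ l, ((M l).map φ).eval x ≠ 0) :
    Ideal.span (Set.range M) = ⊤ := by
  obtain ⟨l₀, hl₀⟩ := hoo
  have hu : IsUnit ((M l₀).coeff D) := isUnit_of_map_ne_zero φ hφ hl₀
  have hne : (M l₀).coeff D ≠ 0 := hu.ne_zero
  have hD : (M l₀).natDegree = D := le_antisymm (hdeg l₀) (Polynomial.le_natDegree_of_ne_zero hne)
  have hlead : IsUnit (M l₀).leadingCoeff := by
    rw [Polynomial.leadingCoeff, hD]; exact hu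
  exact naka φ hφ M l₀ hlead (span_eq_top_of_no_zero _ hz)

/-- The same for a finite family, with explicit cofactors. -/
theorem naka_degree_bezout [IsAlgClosed κ] (φ : R →+* κ) (hφ : Function.Surjective φ) {ι : Type*}
    [Fintype ι] (M : ι → R[X]) (D : ℕ) (hdeg : ∀ l, (M l).natDegree ≤ D)
    (hoo : ∃ l, φ ((M l).coeff D) ≠ 0)
    (hz : ∀ x : κ, ∃ l, ((M l).map φ).eval x ≠ 0) :
    ∃ c : ι → R[X], ∑ l, c l * M l = 1 := by
  have h := naka_degree φ hφ M D hdeg hoo hz
  have h1 : (1 : R[X]) ∈ Ideal.span (Set.range M) := by rw [h]; trivial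
  obtain ⟨c, hc⟩ := (Ideal.mem_span_range_iff_exists_fun).1 h1
  exact ⟨c, hc⟩

end Pool.Agent.SP1858
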