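import Mathlib

/-!
MP_1858fb_ag, add-on SMOOTH POINTS, piece SP-B (helper86): the key lemma S3 (three by three
minors of `F`, `D₁ F`, `D₂ F` modulo a common factor of `F - μ w`).
-/

namespace Pool.Agent.SP1858

/-- The three by three minor with rows `u, v, w` and columns `a, b, c`. -/
def det3 {A : Type*} [CommRing A] {ι : Type*} (u v w : ι → A) (a b c : ι) : A :=
  u a * (v b * w c - v c * w b) - u b * (v a * w c - v c * w a) + u c * (v a * w b - v b * w a)

theorem det3_scale {A : Type*} [CommRing A] {ι : Type*} (F G H : ι → A) (r s t : A)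
    (a b c : ι) :
    det3 (fun i => r * F i) (fun i => r * G i + F i * s) (fun i => r * H i + F i * t) a b c
      = r ^ 3 * det3 F G H a b c := by
  unfold det3; ring

/-- SP-B, the key lemma, in an arbitrary commutative ring `A` (used for `A = R[X]`). -/
theorem key {A : Type*} [CommRing A] {ι : Type*} (D₁ D₂ : Derivation ℤ A A)
    (F H w : ι → A) (r p μ : A)
    (hw1 : ∀ a, D₁ (w a) = 0) (hw2 : ∀ a, D₂ (w a) = 0)
    (h : ∀ a, r * (F a - μ * w a) = p * H a) (a b c : ι) :
    p ∣ r ^ 3 * det3 F (fun i => D₁ (F i)) (fun i => D₂ (F i)) a b c := by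
  have hU : ∀ i, r * F i = r * μ * w i + p * H i := by
    intro i; linear_combination h i
  have hV : ∀ i, r * D₁ (F i) + F i * D₁ r
      = D₁ (r * μ) * w i + D₁ p * H i + p * D₁ (H i) := by
    intro i
    have e := congrArg D₁ (hU i)
    rw [map_add, Derivation.leibniz, Derivation.leibniz D₁ (r * μ) (w i),
      Derivation.leibniz D₁ p (H i), hw1 i] at e
    simp only [smul_eq_mul, mul_zero, zero_add] at e
    linear_combination e
  have hW : ∀ i, r * D₂ (F i) + F i * D₂ r
      = D₂ (r * μ) * w i + D₂ p * H i + p * D₂ (H i) := by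
    intro i
    have e := congrArg D₂ (hU i)
    rw [map_add, Derivation.leibniz, Derivation.leibniz D₂ (r * μ) (w i),
      Derivation.leibniz D₂ p (H i), hw2 i] at e
    simp only [smul_eq_mul, mul_zero, zero_add] at e
    linear_combination e
  rw [← det3_scale F (fun i => D₁ (F i)) (fun i => D₂ (F i)) r (D₁ r) (D₂ r) a b c]
  have e1 : (fun i => r * F i) = fun i => r * μ * w i + p * H i := funext hU
  have e2 : (fun i => r * D₁ (F i) + F i * D₁ r)
      = fun i => D₁ (r * μ) * w i + D₁ p * H i + p * D₁ (H i) := funext hV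
  have e3 : (fun i => r * D₂ (F i) + F i * D₂ r)
      = fun i => D₂ (r * μ) * w i + D₂ p * H i + p * D₂ (H i) := funext hW
  rw [e1, e2, e3]
  refine ⟨det3 H (fun i => D₁ (r * μ) * w i + D₁ p * H i + p * D₁ (H i))
      (fun i => D₂ (r * μ) * w i + D₂ p * H i + p * D₂ (H i)) a b c
    + det3 (fun i => r * μ * w i) (fun i => D₁ (H i))
      (fun i => D₂ (r * μ) * w i + D₂ p * H i + p * D₂ (H i)) a b c
    + det3 (fun i => r * μ * w i) (fun i => D₁ (r * μ) * w i + D₁ p * H i)
      (fun i => D₂ (H i)) a b c, ?_⟩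
  unfold det3
  ring

end Pool.Agent.SP1858
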