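import Mathlib
import Pool.Agent.Lib_MP_1858fb_sp.Key

/-!
MP_1858fb_ag, add-on SMOOTH POINTS, piece SP-C (helper86): the polynomials
`q_a = (F_a - μ v_a)/(X - c_i)` generate the unit ideal over the field of fractions.
-/

namespace Pool.Agent.SP1858

open Polynomial

variable {R : Type*} [CommRing R] [IsDomain R] {K : Type*} [Field K] [Algebra R K]
  [IsFractionRing R K]

/-- clearing denominators of a finite family of polynomials. -/
theorem clear_den {ι : Type*} [Fintype ι] (h : ι → K[X]) :
    ∃ (B : R) (H : ι → R[X]), B ≠ 0 ∧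
      ∀ a, (H a).map (algebraMap R K) = C (algebraMap R K B) * h a := by
  classical
  have h1 : ∀ a, ∃ (b : R) (G : R[X]), b ≠ 0 ∧
      G.map (algebraMap R K) = C (algebraMap R K b) * h a := by
    intro a
    obtain ⟨b, hb⟩ := IsLocalization.integerNormalization_map_to_map (nonZeroDivisors R) (h a)
    refine ⟨b, IsLocalization.integerNormalization (nonZeroDivisors R) (h a),
      nonZeroDivisors.ne_zero b.2, ?_⟩
    rw [hb, Algebra.smul_def]
    rfl
  choose b G hb hG using h1
  refine ⟨∏ a, b a, fun a => C (∏ x ∈ Finset.univ.erase a, b x) * G a,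
    Finset.prod_ne_zero_iff.2 fun a _ => hb a, fun a => ?_⟩
  rw [Polynomial.map_mul, Polynomial.map_C, hG a, ← mul_assoc, ← C_mul, ← map_mul,
    Finset.prod_erase_mul _ _ (Finset.mem_univ a)]

/-- SP-C. -/
theorem spC {ι : Type*} [Fintype ι] {J : Type*} {L : Type*} [Fintype L]
    (D : J → Derivation ℤ R[X] R[X]) (c : L → R) (F v : ι → R[X])
    (hv : ∀ j a, D j (v a) = 0) (μ : R[X]) (M : ι → ι → ι → J → J → R[X])
    (hM : ∀ a b e j k, det3 F (fun i => D j (F i)) (fun i => D k (F i)) a b e
      = (∏ l, (X - C (c l))) ^ 2 * M a b e j k)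
    (hspan : Ideal.span (Set.range fun x : ι × ι × ι × J × J =>
      M x.1 x.2.1 x.2.2.1 x.2.2.2.1 x.2.2.2.2) = ⊤)
    (q : ι → R[X]) (i₀ : L) (hq : ∀ a, F a - μ * v a = (X - C (c i₀)) * q a)
    (hne : ∀ l, ∃ a, (q a).eval (c l) ≠ 0) :
    Ideal.span (Set.range fun a => (q a).map (algebraMap R K)) = ⊤ := by
  classical
  have hinj : Function.Injective (algebraMap R K) := IsFractionRing.injective R K
  have hminj : Function.Injective (Polynomial.map (algebraMap R K)) :=
    Polynomial.map_injective _ hinj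
  by_contra hI
  obtain ⟨g, hg⟩ := (IsPrincipalIdealRing.principal
    (Ideal.span (Set.range fun a => (q a).map (algebraMap R K)))).principal
  have hgdvd : ∀ a, g ∣ (q a).map (algebraMap R K) := by
    intro a
    have : (q a).map (algebraMap R K) ∈
        Ideal.span (Set.range fun a => (q a).map (algebraMap R K)) :=
      Ideal.subset_span ⟨a, rfl⟩
    rw [hg] at this
    exact Ideal.mem_span_singleton.1 this
  have hgu : ¬ IsUnit g := by
    intro hu
    apply hI
    rw [hg]
    exact Ideal.span_singleton_eq_top.2 hu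
  have hg0 : g ≠ 0 := by
    rintro rfl
    obtain ⟨a, ha⟩ := hne i₀
    apply ha
    have h1 := zero_dvd_iff.1 (hgdvd a)
    have h2 : q a = 0 := hminj (by rw [h1, Polynomial.map_zero])
    rw [h2, eval_zero]
  obtain ⟨p₀, hirr, hp₀g⟩ := WfDvdMonoid.exists_irreducible_factor hgu hg0
  have hp : Prime p₀ := hirr.prime
  choose h hh using fun a => (hp₀g.trans (hgdvd a))
  -- clear denominators
  obtain ⟨B, H, hB, hH⟩ := clear_den (R := R) h
  obtain ⟨s, P, hs, hP⟩ := clear_den (R := R) (fun _ : Unit => p₀)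
  have hP' := hP ()
  set p : R[X] := P () with hpdef
  have hrel : ∀ a, C (s * B) * (F a - μ * v a) = p * ((X - C (c i₀)) * H a) := by
    intro a
    apply hminj
    rw [hq a]
    simp only [Polynomial.map_mul, Polynomial.map_C, Polynomial.map_sub, Polynomial.map_X,
      map_mul, C_mul, hH, hP', hh]
    ring
  have hdvd : ∀ a b e j k, p₀ ∣ ((∏ l, (X - C (c l))) ^ 2 * M a b e j k).map (algebraMap R K) := by
    intro a b e j k
    have h1 := key (D j) (D k) F (fun a => (X - C (c i₀)) * H a) v (C (s * B)) p μ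
      (hv j) (hv k) hrel a b e
    have h1 : p ∣ C (s * B) ^ 3 * ((∏ l, (X - C (c l))) ^ 2 * M a b e j k) :=
      hM a b e j k ▸ h1
    have h2 := Polynomial.map_dvd (algebraMap R K) h1
    rw [Polynomial.map_mul, hP'] at h2
    have h3 : p₀ ∣ ((C (s * B) ^ 3 : R[X])).map (algebraMap R K) *
        ((∏ l, (X - C (c l))) ^ 2 * M a b e j k).map (algebraMap R K) :=
      (Dvd.intro_left _ rfl).trans h2
    rcases hp.dvd_or_dvd h3 with h4 | h4
    · exfalso
      have hu : IsUnit (((C (s * B) ^ 3 : R[X])).map (algebraMap R K)) := by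
        rw [Polynomial.map_pow, Polynomial.map_C]
        apply IsUnit.pow
        rw [Polynomial.isUnit_C, isUnit_iff_ne_zero]
        intro h5
        have : s * B = 0 := hinj (by rw [h5, map_zero])
        exact mul_ne_zero hs hB this
      exact hp.not_unit (isUnit_of_dvd_unit h4 hu)
    · exact h4
  have hall : ∀ y : R[X], y ∈ Ideal.span (Set.range fun x : ι × ι × ι × J × J =>
      M x.1 x.2.1 x.2.2.1 x.2.2.2.1 x.2.2.2.2) →
      p₀ ∣ ((∏ l, (X - C (c l))) ^ 2 * y).map (algebraMap R K) := by
    intro y hy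
    induction hy using Submodule.span_induction with
    | mem y hy =>
      obtain ⟨x, rfl⟩ := hy
      exact hdvd _ _ _ _ _
    | zero => simp
    | add y z _ _ hy hz =>
      rw [mul_add, Polynomial.map_add]
      exact dvd_add hy hz
    | smul r y _ hy =>
      rw [smul_eq_mul, mul_left_comm, Polynomial.map_mul]
      exact hy.mul_left _
  have h1 : p₀ ∣ ((∏ l, (X - C (c l))) ^ 2 * (1 : R[X])).map (algebraMap R K) :=
    hall 1 (by rw [hspan]; trivial)
  rw [mul_one, Polynomial.map_pow] at h1
  have h2 := hp.dvd_of_dvd_pow h1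
  rw [Polynomial.map_prod] at h2
  obtain ⟨l, -, hl⟩ := hp.exists_mem_finset_dvd h2
  rw [Polynomial.map_sub, Polynomial.map_X, Polynomial.map_C] at hl
  have hassoc : Associated p₀ (X - C (algebraMap R K (c l))) :=
    hirr.associated_of_dvd (Polynomial.irreducible_X_sub_C _) hl
  obtain ⟨a, ha⟩ := hne l
  apply ha
  have h3 : (X - C (algebraMap R K (c l))) ∣ (q a).map (algebraMap R K) :=
    hassoc.symm.dvd.trans (hp₀g.trans (hgdvd a))
  rw [Polynomial.dvd_iff_isRoot, Polynomial.IsRoot, Polynomial.eval_map,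
    Polynomial.eval₂_at_apply] at h3
  exact hinj (by rw [h3, map_zero])

/-- SP-C with explicit cofactors. -/
theorem spC_bezout {ι : Type*} [Fintype ι] {J : Type*} {L : Type*} [Fintype L]
    (D : J → Derivation ℤ R[X] R[X]) (c : L → R) (F v : ι → R[X])
    (hv : ∀ j a, D j (v a) = 0) (μ : R[X]) (M : ι → ι → ι → J → J → R[X])
    (hM : ∀ a b e j k, det3 F (fun i => D j (F i)) (fun i => D k (F i)) a b e
      = (∏ l, (X - C (c l))) ^ 2 * M a b e j k)
    (hspan : Ideal.span (Set.range fun x : ι × ι × ι × J × J =>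
      M x.1 x.2.1 x.2.2.1 x.2.2.2.1 x.2.2.2.2) = ⊤)
    (q : ι → R[X]) (i₀ : L) (hq : ∀ a, F a - μ * v a = (X - C (c i₀)) * q a)
    (hne : ∀ l, ∃ a, (q a).eval (c l) ≠ 0) :
    ∃ g : ι → K[X], ∑ a, g a * (q a).map (algebraMap R K) = 1 := by
  have h := spC (K := K) D c F v hv μ M hM hspan q i₀ hq hne
  have h1 : (1 : K[X]) ∈ Ideal.span (Set.range fun a => (q a).map (algebraMap R K)) := by
    rw [h]; trivial
  exact (Ideal.mem_span_range_iff_exists_fun).1 h1

omit [IsDomain R] in
/-- `q_a` at a point `x ≠ c_i`: nonzero when `F(x)` is not proportional to `v`. -/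
theorem q_eval_ne {ι : Type*} (F v q : ι → R[X]) (μ : R[X]) (c x : R) (a : ι)
    (hq : F a - μ * v a = (X - C c) * q a)
    (h : (F a).eval x ≠ μ.eval x * (v a).eval x) : (q a).eval x ≠ 0 := by
  intro h0
  apply h
  have := congrArg (Polynomial.eval x) hq
  simp only [eval_sub, eval_mul, eval_X, eval_C, h0, mul_zero] at this
  exact sub_eq_zero.1 this

omit [IsDomain R] in
/-- `q_a` at the point `c_i` itself is the derivative of `F_a - μ v_a`. -/
theorem q_eval_self {ι : Type*} (F v q : ι → R[X]) (μ : R[X]) (c : R) (a : ι)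
    (hq : F a - μ * v a = (X - C c) * q a) :
    (q a).eval c = (derivative (F a)).eval c - (derivative μ).eval c * (v a).eval c
      - μ.eval c * (derivative (v a)).eval c := by
  have := congrArg (fun p => (derivative p).eval c) hq
  simp only [derivative_sub, derivative_mul, derivative_X, derivative_C, eval_sub, eval_mul,
    eval_add, eval_X, eval_C, sub_self, zero_mul, add_zero, eval_one, one_mul, sub_zero] at this
  linear_combination -this

end Pool.Agent.SP1858
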